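import Pool.Agent.Helper17.PP2.Goals

set_option autoImplicit false

namespace Pool.Agent.Helper91.PP2

open Finset
open Pool.Agent.Helper17.PP

theorem r_ex7 (hdec : Pool.Agent.Helper17.PP.C_DEC) : Pool.Agent.Helper17.PP2.R_EX7 := by
  classical
  intro p _ B B₀ k U Λ C _ _ _ _ _ _ _ _ _ _ _ S ψ G g K hyp ε hε
  have hK : (1 : ℝ) ≤ K := by exact_mod_cast hyp.one_le
  have hK0 : (0 : ℝ) < K := by linarith
  obtain ⟨j₁, hj₁⟩ := hyp.tail (ε / K ^ 2) (by positivity)
  refine ⟨j₁, ?_⟩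
  intro j₀ hj₀ X hX P
  have hX0 : (0 : ℝ) < X := by linarith
  obtain ⟨hdec1, -, -⟩ := hdec B P
  have hN1 : ∀ q, (1 : ℝ) ≤ S.N q := fun q ↦ by
    have := S.two_le q
    exact_mod_cast (by omega : 1 ≤ S.N q)
  have hN : ∀ q, (0 : ℝ) < S.N q := fun q ↦ by linarith [hN1 q]
  have hg0 : ∀ Y, 0 ≤ g Y := fun Y ↦ le_trans zero_le_one (hyp.g_one Y)
  let cond : B → Prop := fun q ↦ ¬ G q ∧ j₀ ≤ S.bl q
  have nm_erase : ∀ (b : Finset B) (q : B), q ∈ b → S.nm b = S.N q * S.nm (b.erase q) := by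
    intro b q hq
    unfold Sys.nm
    rw [Finset.mul_prod_erase b (fun q ↦ S.N q) hq]
  -- step 1
  have step1 : ∑ b ∈ P.powerset with (∃ q ∈ b, ¬ G q ∧ j₀ ≤ S.bl q),
      Real.exp (-(S.nm b / X)) ≤
      ∑ b ∈ P.powerset, ∑ q ∈ b,
        (if cond q then Real.exp (-((S.N q * S.nm (b.erase q) : ℕ) / X)) else 0) := by
    rw [Finset.sum_filter]
    apply Finset.sum_le_sum
    intro b _
    have hnn : ∀ q ∈ b, 0 ≤
        (if cond q then Real.exp (-((S.N q * S.nm (b.erase q) : ℕ) / X)) else 0) := by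
      intro q _
      split_ifs
      · exact (Real.exp_pos _).le
      · exact le_refl _
    split_ifs with h
    · obtain ⟨q, hq, hG, hj⟩ := h
      refine le_trans ?_ (Finset.single_le_sum hnn hq)
      have hc : cond q := ⟨hG, hj⟩
      simp only [if_pos hc]
      rw [nm_erase b q hq]
    · exact Finset.sum_nonneg hnn
  -- step 2
  have step2 : ∑ b ∈ P.powerset, ∑ q ∈ b,
        (if cond q then Real.exp (-((S.N q * S.nm (b.erase q) : ℕ) / X)) else 0)
      ≤ ∑ q ∈ P, (if cond q then ∑ r ∈ P.powerset,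
          Real.exp (-((S.N q * S.nm r : ℕ) / X)) else 0) := by
    have h1 := hdec1 ℝ (fun q r ↦
        (if cond q then Real.exp (-((S.N q * S.nm r : ℕ) / X)) else 0))
    rw [h1, Finset.sum_comm' (t' := P) (s' := fun q ↦ P.powerset.filter fun r ↦ q ∉ r)]
    · apply Finset.sum_le_sum
      intro q _
      refine le_trans (Finset.sum_le_sum_of_subset_of_nonneg (Finset.filter_subset _ _) ?_) ?_
      · intro r _ _
        split_ifs
        · exact (Real.exp_pos _).le
        · exact le_refl _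
      · apply le_of_eq
        split_ifs
        · rfl
        · simp
    · intro r q
      simp only [mem_powerset, mem_sdiff, mem_filter]
      tauto
  -- step 3
  have step3 : ∀ q : B, ∑ r ∈ P.powerset,
      Real.exp (-((S.N q * S.nm r : ℕ) / X)) ≤
        (K : ℝ) ^ 2 * (X * g X) * (1 / S.N q) := by
    intro q
    set Y : ℝ := X / S.N q with hY
    have hY0 : 0 < Y := div_pos hX0 (hN q)
    have hYX : Y ≤ X := div_le_self hX0.le (hN1 q)
    have h1 := hyp.ht (fun _ ↦ 1) (fun _ ↦ ⟨zero_le_one, by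
      have : (0 : ℝ) ≤ Fintype.card k := by positivity
      linarith⟩) Y hY0 P
    simp only [Finset.prod_const_one, one_mul, sub_self, zero_div, Finset.sum_const_zero,
      Real.exp_zero, mul_one] at h1
    have h2 : ∑ r ∈ P.powerset, Real.exp (-((S.N q * S.nm r : ℕ) / X))
        = ∑ r ∈ P.powerset, Real.exp (-(S.nm r / Y)) := by
      apply Finset.sum_congr rfl
      intro r _
      congr 2
      rw [hY]
      push_cast
      have := (hN q).ne'
      field_simp
    rw [h2]
    refine h1.trans ?_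
    have h3 : Y * min 1 Y * g Y ≤ Y * (K * g X) := by
      rw [mul_assoc]
      apply mul_le_mul_of_nonneg_left _ hY0.le
      have h4 : min 1 Y * g Y ≤ 1 * g Y := mul_le_mul_of_nonneg_right (min_le_left _ _) (hg0 Y)
      have h5 := hyp.g_mono Y X hYX
      linarith
    have h6 : (K : ℝ) * (Y * min 1 Y * g Y) ≤ K * (Y * (K * g X)) :=
      mul_le_mul_of_nonneg_left h3 (by linarith)
    refine h6.trans (le_of_eq ?_)
    rw [hY]
    ring
  -- step 4
  obtain ⟨J, hJ⟩ : ∃ J, ∀ q ∈ P, S.bl q < J := by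
    refine ⟨P.sup S.bl + 1, ?_⟩
    intro q hq
    have := Finset.le_sup (f := S.bl) hq
    omega
  have step4 : ∑ q ∈ P with cond q, (1 : ℝ) / S.N q ≤ ε / K ^ 2 := by
    refine le_trans ?_ (hj₁ J)
    apply Finset.sum_le_sum_of_subset_of_nonneg
    · intro q hq
      obtain ⟨hqP, hG, hj⟩ := Finset.mem_filter.mp hq
      rw [Finset.mem_filter]
      refine ⟨?_, hG, hj₀.trans hj⟩
      unfold Sys.below
      rw [Finset.mem_filter, Set.Finite.mem_toFinset]
      refine ⟨?_, hJ q hqP⟩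
      show S.N q ≤ 2 ^ J
      exact (Nat.lt_pow_of_log_lt (by norm_num) (hJ q hqP)).le
    · intro q _ _
      have := hN q
      positivity
  refine step1.trans (step2.trans ?_)
  have h0 : 0 ≤ (K : ℝ) ^ 2 * (X * g X) := by
    have := hg0 X
    positivity
  calc ∑ q ∈ P, (if cond q then ∑ r ∈ P.powerset,
          Real.exp (-((S.N q * S.nm r : ℕ) / X)) else 0)
      = ∑ q ∈ P with cond q, ∑ r ∈ P.powerset, Real.exp (-((S.N q * S.nm r : ℕ) / X)) := by
        rw [Finset.sum_filter]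
    _ ≤ ∑ q ∈ P with cond q, (K : ℝ) ^ 2 * (X * g X) * (1 / S.N q) :=
        Finset.sum_le_sum fun q _ ↦ step3 q
    _ = (K : ℝ) ^ 2 * (X * g X) * ∑ q ∈ P with cond q, (1 / S.N q : ℝ) := by
        rw [Finset.mul_sum]
    _ ≤ (K : ℝ) ^ 2 * (X * g X) * (ε / K ^ 2) := mul_le_mul_of_nonneg_left step4 h0
    _ = ε * (X * g X) := by
        field_simp

end Pool.Agent.Helper91.PP2
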